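import Pool.Agent.V5helper23.PF.Stm2

/-! # Project PF, job GEO: the sector is a fundamental domain of the dihedral group -/

set_option autoImplicit false

open Real

namespace Pool.Agent.V5helper31.PF

open Pool.Agent.V5helper23.PF (rot ref anti sector S_GEO)

lemma key (α ψ : ℝ) (hα : 0 ≤ α) (h1 : α ≤ ψ) (h2 : ψ ≤ 2 * π) (h3 : 0 < sin ψ) :
    0 ≤ sin (ψ - α) := by
  have h4 : ψ < π := by
    by_contra h
    push Not at h
    have h5 : 0 ≤ sin (ψ - π) := sin_nonneg_of_nonneg_of_le_pi (by linarith) (by linarith)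
    rw [sin_sub_pi] at h5
    linarith
  exact sin_nonneg_of_nonneg_of_le_pi (by linarith) (by linarith)

lemma not_sector (m : ℕ) (r ψ : ℝ) (hr : 0 < r) (h1 : π / m ≤ ψ ∨ sin ψ ≤ 0) (h2 : ψ ≤ 2 * π)
    (q : ℝ × ℝ) (hq1 : q.1 = r * cos ψ) (hq2 : q.2 = r * sin ψ) : q ∉ sector m := by
  rintro ⟨h3, h4⟩
  rw [hq2] at h3 h4
  rw [hq1] at h4
  have h5 : 0 < sin ψ := (mul_pos_iff_of_pos_left hr).1 h3
  rcases h1 with h1 | h1
  · have h6 := key (π / m) ψ (by positivity) h1 h2 h5
    rw [sin_sub] at h6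
    have h7 : 0 ≤ r * (sin ψ * cos (π / m) - cos ψ * sin (π / m)) := mul_nonneg hr.le h6
    nlinarith
  · linarith

/-- polar coordinates of a point of the sector -/
lemma polar (m : ℕ) (hm : 1 ≤ m) (p : ℝ × ℝ) (hp : p ∈ sector m) : ∃ r θ : ℝ, 0 < r ∧ 0 < θ ∧
    θ < π / m ∧ p.1 = r * cos θ ∧ p.2 = r * sin θ := by
  obtain ⟨h1, h2⟩ := hp
  set z : ℂ := ⟨p.1, p.2⟩ with hz
  have hz0 : z ≠ 0 := by
    intro h
    have := congrArg Complex.im h
    simp only [hz, Complex.zero_im] at this
    linarith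
  have hr : 0 < ‖z‖ := norm_pos_iff.2 hz0
  have e1 : ‖z‖ * cos z.arg = p.1 := Complex.norm_mul_cos_arg z
  have e2 : ‖z‖ * sin z.arg = p.2 := Complex.norm_mul_sin_arg z
  have h3 : 0 < sin z.arg := by
    rw [← e2] at h1
    exact (mul_pos_iff_of_pos_left hr).1 h1
  have h4 : 0 < z.arg := by
    by_contra h
    push Not at h
    have := sin_nonpos_of_nonpos_of_neg_pi_le h (Complex.neg_pi_lt_arg z).le
    linarith
  have h5 : z.arg ≤ π := Complex.arg_le_pi z
  have hm' : (1 : ℝ) ≤ m := by exact_mod_cast hm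
  have h6 : 0 < π / m := by positivity
  have h7 : π / m ≤ π := div_le_self pi_pos.le hm'
  refine ⟨‖z‖, z.arg, hr, h4, ?_, e1.symm, e2.symm⟩
  by_contra h
  push Not at h
  have h8 : 0 ≤ sin (z.arg - π / m) := sin_nonneg_of_nonneg_of_le_pi (by linarith) (by linarith)
  rw [sin_sub] at h8
  rw [← e1, ← e2] at h2
  have h9 := mul_nonneg hr.le h8
  nlinarith

theorem t_GEO : S_GEO := by
  intro m hm f
  have hm' : (1 : ℝ) ≤ m := by exact_mod_cast hm
  have hm0 : (m : ℝ) ≠ 0 := by positivity
  refine ⟨fun p hp => ?_, fun p hp => ?_, fun hf p hp => ?_⟩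
  · refine Finset.sum_eq_zero fun j _ => ?_
    have : rot m j p = ref m j p := by
      simp [rot, ref, hp]
    rw [this, sub_self]
  · -- the other side
    have hx : p.1 = (p.1 * cos (π / m) + p.2 * sin (π / m)) * cos (π / m) := by
      have h1 := sin_sq_add_cos_sq (π / m)
      have : p.1 = p.1 * (sin (π / m) ^ 2 + cos (π / m) ^ 2) := by rw [h1, mul_one]
      linear_combination this + (-sin (π / m)) * hp
    have hy : p.2 = (p.1 * cos (π / m) + p.2 * sin (π / m)) * sin (π / m) := by
      have h1 := sin_sq_add_cos_sq (π / m)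
      have : p.2 = p.2 * (sin (π / m) ^ 2 + cos (π / m) ^ 2) := by rw [h1, mul_one]
      linear_combination this + cos (π / m) * hp
    set r := p.1 * cos (π / m) + p.2 * sin (π / m) with hr
    have h1 : ∀ j : ℕ, ref m (j + 1) p = rot m j p := by
      intro j
      obtain ⟨ψ, hψ⟩ : ∃ ψ, ψ = 2 * π * (j : ℝ) / m + π / m := ⟨_, rfl⟩
      have e1 : 2 * π * ((j + 1 : ℕ) : ℝ) / m = ψ + π / m := by
        rw [hψ]; push_cast; field_simp; ring
      have e2 : 2 * π * (j : ℝ) / m = ψ - π / m := by rw [hψ]; ring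
      unfold ref rot
      rw [e1, e2, hx, hy]
      ext
      · simp only
        rw [cos_add ψ (π / m), sin_add ψ (π / m), cos_sub ψ (π / m), sin_sub ψ (π / m)]
        ring
      · simp only
        rw [cos_add ψ (π / m), sin_add ψ (π / m), cos_sub ψ (π / m), sin_sub ψ (π / m)]
        ring
    have h2 : ref m m p = ref m 0 p := by
      have e1 : 2 * π * (m : ℝ) / m = 2 * π := by field_simp
      unfold ref
      rw [e1]
      simp
    unfold anti
    rw [Finset.sum_sub_distrib, sub_eq_zero]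
    have h3 : ∑ j ∈ Finset.range m, f (rot m j p) = ∑ j ∈ Finset.range m, f (ref m (j + 1) p) :=
      Finset.sum_congr rfl fun j _ => by rw [h1]
    have h4 := Finset.sum_range_succ (fun j => f (ref m j p)) m
    have h5 := Finset.sum_range_succ' (fun j => f (ref m j p)) m
    rw [h3]
    rw [h4] at h5
    simp only [h2] at h5
    linarith
  · -- inside
    obtain ⟨r, θ, hr, hθ0, hθ, e1, e2⟩ := polar m hm p hp
    have hα : 0 < π / m := by positivity
    have hα1 : π / m * m = π := by field_simp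
    have hang : ∀ j : ℕ, 2 * π * (j : ℝ) / m = 2 * j * (π / m) := by
      intro j; ring
    obtain ⟨n, rfl⟩ : ∃ n, m = n + 1 := ⟨m - 1, by omega⟩
    have hrot : ∀ j, 1 ≤ j → j < n + 1 → f (rot (n + 1) j p) = 0 := by
      intro j hj1 hj2
      apply hf
      have hj1' : (1 : ℝ) ≤ j := by exact_mod_cast hj1
      have hj2' : (j : ℝ) + 1 ≤ (n + 1 : ℕ) := by exact_mod_cast hj2
      refine not_sector (n + 1) r (2 * j * (π / (n + 1 : ℕ)) + θ) hr (Or.inl ?_) ?_ _ ?_ ?_
      · nlinarith
      · nlinarith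
      · simp only [rot]
        rw [hang, e1, e2, cos_add]; ring
      · simp only [rot]
        rw [hang, e1, e2, sin_add]; ring
    have href : ∀ j, j < n + 1 → f (ref (n + 1) j p) = 0 := by
      intro j hj2
      apply hf
      have hj2' : (j : ℝ) + 1 ≤ (n + 1 : ℕ) := by exact_mod_cast hj2
      refine not_sector (n + 1) r (2 * j * (π / (n + 1 : ℕ)) - θ) hr ?_ ?_ _ ?_ ?_
      · rcases Nat.eq_zero_or_pos j with h0 | h0
        · right
          subst h0
          have : π / ((n + 1 : ℕ) : ℝ) ≤ π := div_le_self pi_pos.le hm'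
          rw [Nat.cast_zero, mul_zero, zero_mul, zero_sub, sin_neg, neg_nonpos]
          exact sin_nonneg_of_nonneg_of_le_pi hθ0.le (by linarith)
        · left
          have hj1' : (1 : ℝ) ≤ j := by exact_mod_cast h0
          nlinarith
      · nlinarith
      · simp only [ref]
        rw [hang, e1, e2, cos_sub]; ring
      · simp only [ref]
        rw [hang, e1, e2, sin_sub]; ring
    unfold anti
    rw [Finset.sum_range_succ', Finset.sum_eq_zero, zero_add, href 0 (by omega), sub_zero]
    · have : rot (n + 1) 0 p = p := by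
        simp [rot]
      rw [this]
    · intro j hj
      rw [Finset.mem_range] at hj
      rw [hrot (j + 1) (by omega) (by omega), href (j + 1) (by omega), sub_zero]

end Pool.Agent.V5helper31.PF
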